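import Pool.Agent.MP_1da87e_co.Main

open Pool.Agent.MP_1da87e_co

theorem Pool.Agent.Results.MP_1da87e_co.Separation.result :
    ∃ ℋ 𝒢 : GClass, IsoClosed ℋ ∧ IsoClosed 𝒢 ∧ Hereditary ℋ ∧
      (∀ n H, ℋ n H ↔ H.IsBipartite) ∧
      (⨆ (n : ℕ) (H : SimpleGraph (Fin n)) (_ : ℋ n H), cl 𝒢 H) ≤ 3 ∧
      (⨆ (n : ℕ) (H : SimpleGraph (Fin n)) (_ : ℋ n H), cu 𝒢 H) = ⊤ :=
  main
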